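import Mathlib

/-!
# Groups of automorphisms of a complete linear order satisfying an Engel identity
-/

set_option autoImplicit false

namespace Pool.Agent.H75.Engel

open Filter

/-- the iterated commutator `[x, y, ..., y]` with `n` letters `y` -/
def eng {G : Type*} [Group G] (x y : G) (n : ℕ) : G := (fun z => z⁻¹ * y⁻¹ * z * y)^[n] x

theorem eng_zero {G : Type*} [Group G] (x y : G) : eng x y 0 = x := rfl

theorem eng_succ {G : Type*} [Group G] (x y : G) (n : ℕ) :
    eng x y (n + 1) = (eng x y n)⁻¹ * y⁻¹ * eng x y n * y := by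
  unfold eng
  rw [Function.iterate_succ_apply']

theorem eng_map {G H : Type*} [Group G] [Group H] (f : G →* H) (x y : G) (n : ℕ) :
    f (eng x y n) = eng (f x) (f y) n := by
  induction n with
  | zero => rfl
  | succ n ih => simp only [eng_succ, map_mul, map_inv, ih]

variable {X : Type*} [CompleteLinearOrder X]

theorem pow_succ_apply' (u : X ≃o X) (n : ℕ) (t : X) : (u ^ (n + 1)) t = u ((u ^ n) t) := by
  rw [pow_succ']; rfl

theorem pow_succ_apply (u : X ≃o X) (n : ℕ) (t : X) : (u ^ (n + 1)) t = (u ^ n) (u t) := by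
  rw [pow_succ]; rfl

theorem inv_lt_iff' (u : X ≃o X) (a b : X) : u⁻¹ a < b ↔ a < u b := by
  constructor
  · intro h
    have := u.strictMono h
    rwa [show u (u⁻¹ a) = a from RelIso.apply_inv_self u a] at this
  · intro h
    have := (u⁻¹).strictMono h
    rwa [show u⁻¹ (u b) = b from RelIso.inv_apply_self u b] at this

theorem lt_inv_iff' (u : X ≃o X) (a b : X) : a < u⁻¹ b ↔ u a < b := by
  constructor
  · intro h
    have := u.strictMono h
    rwa [show u (u⁻¹ b) = b from RelIso.apply_inv_self u b] at this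
  · intro h
    have := (u⁻¹).strictMono h
    rwa [show u⁻¹ (u a) = a from RelIso.inv_apply_self u a] at this

theorem inv_fix (u : X ≃o X) (a : X) : u⁻¹ a = a ↔ u a = a := by
  constructor
  · intro h
    have := congrArg u h
    rw [show u (u⁻¹ a) = a from RelIso.apply_inv_self u a] at this
    exact this.symm
  · intro h
    have := congrArg (fun z => u⁻¹ z) h
    rw [show u⁻¹ (u a) = a from RelIso.inv_apply_self u a] at this
    exact this.symm

theorem apply_inv_self' (u : X ≃o X) (a : X) : u (u⁻¹ a) = a := RelIso.apply_inv_self u a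
theorem inv_apply_self' (u : X ≃o X) (a : X) : u⁻¹ (u a) = a := RelIso.inv_apply_self u a

theorem pow_fix {u : X ≃o X} {b : X} (h : u b = b) (n : ℕ) : (u ^ n) b = b := by
  induction n with
  | zero => rfl
  | succ n ih => rw [pow_succ_apply', ih, h]

/-- the supremum of a forward orbit -/
noncomputable def sp (u : X ≃o X) (t : X) : X := ⨆ n : ℕ, (u ^ n) t

theorem pow_le_sp (u : X ≃o X) (t : X) (n : ℕ) : (u ^ n) t ≤ sp u t := le_iSup (fun n : ℕ => (u ^ n) t) n

theorem le_sp (u : X ≃o X) (t : X) : t ≤ sp u t := pow_le_sp u t 0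

theorem sp_fix {u : X ≃o X} {t : X} (h : t ≤ u t) : u (sp u t) = sp u t := by
  unfold sp
  rw [OrderIso.map_iSup]
  apply le_antisymm
  · apply iSup_le
    intro n
    rw [← pow_succ_apply']
    exact le_iSup (fun n : ℕ => (u ^ n) t) (n + 1)
  · apply iSup_le
    intro n
    have : (u ^ n) t ≤ u ((u ^ n) t) := by
      rw [← pow_succ_apply', pow_succ_apply]
      exact (u ^ n).monotone h
    exact this.trans (le_iSup (fun n : ℕ => u ((u ^ n) t)) n)

theorem sp_le {u : X ≃o X} {t b : X} (htb : t ≤ b) (hb : u b ≤ b) : sp u t ≤ b := by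
  unfold sp
  apply iSup_le
  intro n
  induction n with
  | zero => exact htb
  | succ n ih =>
    rw [pow_succ_apply']
    exact (u.monotone ih).trans hb

theorem pow_mono {u : X ≃o X} {t : X} (h : t ≤ u t) : Monotone (fun n : ℕ => (u ^ n) t) := by
  apply monotone_nat_of_le_succ
  intro n
  rw [pow_succ_apply]
  exact (u ^ n).monotone h

/-- intermediate value theorem -/
theorem ivt {u : X ≃o X} {t s : X} (hts : t ≤ s) (h1 : t ≤ u t) (h2 : u s ≤ s) :
    ∃ p, t ≤ p ∧ p ≤ s ∧ u p = p :=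
  ⟨sp u t, le_sp u t, sp_le hts h2, sp_fix h1⟩

theorem ivt' {u : X ≃o X} {t s : X} (hts : t ≤ s) (h1 : u t ≤ t) (h2 : s ≤ u s) :
    ∃ p, t ≤ p ∧ p ≤ s ∧ u p = p := by
  have h1' : t ≤ u⁻¹ t := by
    have := (u⁻¹).monotone h1
    rwa [inv_apply_self'] at this
  have h2' : u⁻¹ s ≤ s := by
    have := (u⁻¹).monotone h2
    rwa [inv_apply_self'] at this
  obtain ⟨p, hp1, hp2, hp3⟩ := ivt hts h1' h2'
  exact ⟨p, hp1, hp2, (inv_fix u p).mp hp3⟩

/-- constant sign on an interval without fixed points -/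
theorem sign_const {u : X ≃o X} {a b : X} (hfree : ∀ t, a < t → t < b → u t ≠ t) :
    (∀ t, a < t → t < b → t < u t) ∨ (∀ t, a < t → t < b → u t < t) := by
  by_contra hcon
  push Not at hcon
  obtain ⟨⟨t, ht1, ht2, ht3⟩, s, hs1, hs2, hs3⟩ := hcon
  rcases le_total t s with h | h
  · obtain ⟨p, hp1, hp2, hp3⟩ := ivt' h ht3 hs3
    exact hfree p (lt_of_lt_of_le ht1 hp1) (lt_of_le_of_lt hp2 hs2) hp3
  · obtain ⟨p, hp1, hp2, hp3⟩ := ivt h hs3 ht3
    exact hfree p (lt_of_lt_of_le hs1 hp1) (lt_of_le_of_lt hp2 ht2) hp3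

/-- `E` satisfies the `k`-Engel identity. -/
def IsEngel {G : Type*} [Group G] (k : ℕ) (E : Subgroup G) : Prop :=
  ∀ x ∈ E, ∀ y ∈ E, eng x y k = 1

/-- Lemma A. -/
theorem lemA {k : ℕ} {E : Subgroup (X ≃o X)} (hE : IsEngel k E) {u v : X ≃o X} (hu : u ∈ E)
    (hv : v ∈ E) {q b : X} (hqb : q < b) (huq : u q = q) (hub : u b = b) (hvb : v b = b)
    (hfree : ∀ t, q < t → t < b → u t ≠ t) : v q = q := by
  by_contra hvq
  -- choose signs
  obtain ⟨x, hx, hxq, hxb⟩ : ∃ x ∈ E, q < x q ∧ x b = b := by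
    rcases lt_or_gt_of_ne hvq with h | h
    · exact ⟨v⁻¹, E.inv_mem hv, (lt_inv_iff' v q q).mpr h, (inv_fix v b).mpr hvb⟩
    · exact ⟨v, hv, h, hvb⟩
  obtain ⟨y, hy, hyq, hyb, hypos⟩ : ∃ y ∈ E, y q = q ∧ y b = b ∧ ∀ t, q < t → t < b → t < y⁻¹ t := by
    rcases sign_const hfree with h | h
    · refine ⟨u⁻¹, E.inv_mem hu, (inv_fix u q).mpr huq, (inv_fix u b).mpr hub, ?_⟩
      intro t h1 h2
      rw [inv_inv]
      exact h t h1 h2
    · exact ⟨u, hu, huq, hub, fun t h1 h2 => (lt_inv_iff' u t t).mpr (h t h1 h2)⟩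
  have key : ∀ n, q < eng x y n q ∧ eng x y n b = b := by
    intro n
    induction n with
    | zero => exact ⟨hxq, hxb⟩
    | succ n ih =>
      obtain ⟨ih1, ih2⟩ := ih
      have hb' : (eng x y n)⁻¹ b = b := (inv_fix _ b).mpr ih2
      rw [eng_succ]
      constructor
      · change q < (eng x y n)⁻¹ (y⁻¹ (eng x y n (y q)))
        rw [hyq, lt_inv_iff']
        have h3 : eng x y n q < b := by
          have := (eng x y n).strictMono hqb
          rwa [ih2] at this
        exact hypos _ ih1 h3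
      · change (eng x y n)⁻¹ (y⁻¹ (eng x y n (y b))) = b
        rw [hyb, ih2, (inv_fix y b).mpr hyb, hb']
  have := (key k).1
  rw [hE x hx y hy] at this
  exact lt_irrefl q this

/-! ### Duality -/

/-- passing to the dual order -/
def dualHom : (X ≃o X) →* (Xᵒᵈ ≃o Xᵒᵈ) where
  toFun u := u.dual
  map_one' := rfl
  map_mul' _ _ := rfl

theorem dualHom_apply (u : X ≃o X) (t : X) :
    dualHom u (OrderDual.toDual t) = OrderDual.toDual (u t) := rfl

theorem IsEngel.map {G H : Type*} [Group G] [Group H] {k : ℕ} {E : Subgroup G} (hE : IsEngel k E)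
    (f : G →* H) : IsEngel k (E.map f) := by
  rintro _ ⟨x, hx, rfl⟩ _ ⟨y, hy, rfl⟩
  rw [← eng_map, hE x hx y hy, map_one]

/-- Lemma A, mirrored. -/
theorem lemA' {k : ℕ} {E : Subgroup (X ≃o X)} (hE : IsEngel k E) {u v : X ≃o X} (hu : u ∈ E)
    (hv : v ∈ E) {a q : X} (haq : a < q) (hua : u a = a) (huq : u q = q) (hva : v a = a)
    (hfree : ∀ t, a < t → t < q → u t ≠ t) : v q = q := by
  have := lemA (X := Xᵒᵈ) (hE.map dualHom) (u := dualHom u) (v := dualHom v)
    (Subgroup.mem_map_of_mem _ hu) (Subgroup.mem_map_of_mem _ hv)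
    (q := OrderDual.toDual q) (b := OrderDual.toDual a) haq (congrArg OrderDual.toDual huq)
    (congrArg OrderDual.toDual hua) (congrArg OrderDual.toDual hva)
    (fun t h1 h2 h3 => hfree (OrderDual.ofDual t) h2 h1 (congrArg OrderDual.ofDual h3))
  exact congrArg OrderDual.ofDual this

/-- fixed points are cofinal -/
theorem cofinal {k : ℕ} {E : Subgroup (X ≃o X)} (hE : IsEngel k E) {u v : X ≃o X} (hu : u ∈ E)
    (hv : v ∈ E) {a b : X} (hub : u b = b) (hvb : v b = b)
    (hno : ∀ t, a < t → t < b → ¬ (u t = t ∧ v t = t))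
    (hex : ∃ p, a < p ∧ p < b ∧ u p = p) {t : X} (htb : t < b) :
    ∃ q, t < q ∧ q < b ∧ u q = q := by
  obtain ⟨p, hp1, hp2, hp3⟩ := hex
  by_contra hcon
  push Not at hcon
  have hpt : p ≤ t := by
    by_contra h
    exact hcon p (not_le.mp h) hp2 hp3
  set q := sSup {s | s ≤ t ∧ u s = s} with hq
  have hqt : q ≤ t := sSup_le (fun s hs => hs.1)
  have hpq : p ≤ q := le_sSup ⟨hpt, hp3⟩
  have huq : u q = q := by
    rw [hq, OrderIso.map_sSup, sSup_eq_iSup]
    apply le_antisymm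
    · refine iSup_le (fun s => iSup_le (fun hs => ?_))
      rw [hs.2]
      exact le_iSup₂_of_le s hs le_rfl
    · refine iSup_le (fun s => iSup_le (fun hs => ?_))
      exact le_iSup₂_of_le s hs (by rw [hs.2])
  have hqb : q < b := lt_of_le_of_lt hqt htb
  have haq : a < q := lt_of_lt_of_le hp1 hpq
  have hfree : ∀ s, q < s → s < b → u s ≠ s := by
    intro s h1 h2 h3
    rcases le_or_gt s t with h | h
    · exact absurd (le_sSup (show s ∈ {s | s ≤ t ∧ u s = s} from ⟨h, h3⟩)) (not_le.mpr h1)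
    · exact hcon s h h2 h3
  have := lemA hE hu hv hqb huq hub hvb hfree
  exact hno q haq hqb ⟨huq, this⟩

theorem coinitial {k : ℕ} {E : Subgroup (X ≃o X)} (hE : IsEngel k E) {u v : X ≃o X} (hu : u ∈ E)
    (hv : v ∈ E) {a b : X} (hua : u a = a) (hva : v a = a)
    (hno : ∀ t, a < t → t < b → ¬ (u t = t ∧ v t = t))
    (hex : ∃ p, a < p ∧ p < b ∧ u p = p) {t : X} (hat : a < t) :
    ∃ q, a < q ∧ q < t ∧ u q = q := by
  obtain ⟨p, hp1, hp2, hp3⟩ := hex
  obtain ⟨q, hq1, hq2, hq3⟩ := cofinal (X := Xᵒᵈ) (hE.map dualHom) (u := dualHom u) (v := dualHom v)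
    (Subgroup.mem_map_of_mem _ hu) (Subgroup.mem_map_of_mem _ hv)
    (a := OrderDual.toDual b) (b := OrderDual.toDual a) (congrArg OrderDual.toDual hua)
    (congrArg OrderDual.toDual hva)
    (fun t h1 h2 h3 => hno (OrderDual.ofDual t) h2 h1
      ⟨congrArg OrderDual.ofDual h3.1, congrArg OrderDual.ofDual h3.2⟩)
    ⟨OrderDual.toDual p, hp2, hp1, congrArg OrderDual.toDual hp3⟩ (t := OrderDual.toDual t) hat
  exact ⟨OrderDual.ofDual q, hq2, hq1, congrArg OrderDual.ofDual hq3⟩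

/-! ### Limits -/

/-- `z N` tends to `e` in the order topology -/
def Lim (z : ℕ → X) (e : X) : Prop :=
  (∀ c, c < e → ∀ᶠ N in atTop, c < z N) ∧ (∀ d, e < d → ∀ᶠ N in atTop, z N < d)

theorem Lim.const (e : X) : Lim (fun _ => e) e :=
  ⟨fun _ hc => Eventually.of_forall (fun _ => hc), fun _ hd => Eventually.of_forall (fun _ => hd)⟩

theorem Lim.dual {z : ℕ → X} {e : X} (h : Lim z e) :
    Lim (X := Xᵒᵈ) (fun N => OrderDual.toDual (z N)) (OrderDual.toDual e) := ⟨h.2, h.1⟩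

theorem Lim.ne {z : ℕ → X} {e t : X} (h : Lim z e) (hne : e ≠ t) : ∃ N, z N ≠ t := by
  rcases lt_or_gt_of_ne hne with h1 | h1
  · obtain ⟨N, hN⟩ := (h.2 t h1).exists
    exact ⟨N, hN.ne⟩
  · obtain ⟨N, hN⟩ := (h.1 t h1).exists
    exact ⟨N, hN.ne'⟩

theorem lim_pow {u : X ≃o X} {z : ℕ → X} {e : X} (he : e < u e) (hz : Lim z e) :
    Lim (fun N => (u ^ N) (z N)) (sp u e) := by
  constructor
  · intro c hc
    obtain ⟨n, hn⟩ := lt_iSup_iff.mp hc
    have h1 := hz.1 (u⁻¹ e) ((inv_lt_iff' u e e).mpr he)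
    filter_upwards [h1, eventually_ge_atTop (n + 1)] with N hN1 hN2
    obtain ⟨m, rfl⟩ : ∃ m, N = m + 1 := ⟨N - 1, by omega⟩
    have h3 : (u ^ (m + 1)) (u⁻¹ e) < (u ^ (m + 1)) (z (m + 1)) := (u ^ (m + 1)).strictMono hN1
    rw [pow_succ_apply, apply_inv_self'] at h3
    exact (hn.trans_le (pow_mono he.le (by omega : n ≤ m))).trans h3
  · intro d hd
    have h1 := hz.2 (u e) he
    filter_upwards [h1] with N hN
    have h3 : (u ^ N) (z N) < (u ^ N) (u e) := (u ^ N).strictMono hN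
    rw [← pow_succ_apply] at h3
    exact (h3.trans_le (pow_le_sp u e (N + 1))).trans hd

/-- a sequence of automorphisms that sends sequences converging to a point of `(a, b)` moved by `p`
to sequences converging to a point of `(a, b)` fixed by `q` -/
def Good (a b : X) (w : ℕ → (X ≃o X)) (p q : X ≃o X) : Prop :=
  ∀ (z : ℕ → X) (e : X), a < e → e < b → p e ≠ e → Lim z e →
    ∃ e', a < e' ∧ e' < b ∧ q e' = e' ∧ Lim (fun N => w N (z N)) e'

theorem good_comp {a b : X} {w w' : ℕ → (X ≃o X)} {p q p' q' : X ≃o X} (h : Good a b w p q)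
    (h' : Good a b w' p' q') (hqp : ∀ e, a < e → e < b → q e = e → p' e ≠ e) :
    Good a b (fun N => w' N * w N) p q' := by
  intro z e h1 h2 h3 h4
  obtain ⟨e', g1, g2, g3, g4⟩ := h z e h1 h2 h3 h4
  obtain ⟨e'', f1, f2, f3, f4⟩ := h' _ e' g1 g2 (hqp e' g1 g2 g3) g4
  exact ⟨e'', f1, f2, f3, f4⟩

theorem good_pow {a b : X} {u : X ≃o X} (hcof : ∀ t, t < b → a < t → ∃ q, t < q ∧ q < b ∧ u q = q)
    (hcoi : ∀ t, a < t → t < b → ∃ q, a < q ∧ q < t ∧ u q = q) :
    Good a b (fun N => u ^ N) u u := by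
  intro z e h1 h2 h3 h4
  rcases lt_or_gt_of_ne h3 with h | h
  · -- `u e < e`
    have hl := lim_pow (X := Xᵒᵈ) (u := dualHom u) (e := OrderDual.toDual e) h h4.dual
    have hfix := sp_fix (X := Xᵒᵈ) (u := dualHom u) (t := OrderDual.toDual e) h.le
    obtain ⟨q, hq1, hq2, hq3⟩ := hcoi e h1 h2
    have hle := sp_le (X := Xᵒᵈ) (u := dualHom u) (t := OrderDual.toDual e)
      (b := OrderDual.toDual q) hq2.le (le_of_eq (congrArg OrderDual.toDual hq3))
    have hge := le_sp (X := Xᵒᵈ) (dualHom u) (OrderDual.toDual e)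
    refine ⟨OrderDual.ofDual (sp (X := Xᵒᵈ) (dualHom u) (OrderDual.toDual e)),
      lt_of_lt_of_le hq1 hle, lt_of_le_of_lt hge h2, congrArg OrderDual.ofDual hfix, ?_⟩
    have := hl.dual
    simp only [← map_pow] at this
    exact this
  · obtain ⟨q, hq1, hq2, hq3⟩ := hcof e h2 h1
    exact ⟨sp u e, lt_of_lt_of_le h1 (le_sp u e), lt_of_le_of_lt (sp_le hq1.le hq3.le) hq2,
      sp_fix h.le, lim_pow h h4⟩

theorem good_inv {a b : X} {u : X ≃o X} (hcof : ∀ t, t < b → a < t → ∃ q, t < q ∧ q < b ∧ u q = q)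
    (hcoi : ∀ t, a < t → t < b → ∃ q, a < q ∧ q < t ∧ u q = q) :
    Good a b (fun N => (u ^ N)⁻¹) u u := by
  have h := good_pow (a := a) (b := b) (u := u⁻¹)
    (fun t h1 h2 => by
      obtain ⟨q, hq1, hq2, hq3⟩ := hcof t h1 h2
      exact ⟨q, hq1, hq2, (inv_fix u q).mpr hq3⟩)
    (fun t h1 h2 => by
      obtain ⟨q, hq1, hq2, hq3⟩ := hcoi t h1 h2
      exact ⟨q, hq1, hq2, (inv_fix u q).mpr hq3⟩)
  intro z e h1 h2 h3 h4
  obtain ⟨e', g1, g2, g3, g4⟩ := h z e h1 h2 (fun h5 => h3 ((inv_fix u e).mp h5)) h4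
  refine ⟨e', g1, g2, (inv_fix u e').mp g3, ?_⟩
  simpa only [inv_pow] using g4

/-- the words `B_n` -/
def wB {G : Type*} [Group G] (x y : G) : ℕ → G
  | 0 => y⁻¹
  | n + 1 => (wB x y n)⁻¹ * (x * (y⁻¹ * (x⁻¹ * wB x y n)))

theorem eng_eq_wB {G : Type*} [Group G] (x y : G) (n : ℕ) :
    eng x y (n + 1) = (y ^ n)⁻¹ * x⁻¹ * wB x y n * x * y ^ (n + 1) := by
  induction n with
  | zero => rw [eng_succ, eng_zero, wB]; group
  | succ n ih =>
    rw [eng_succ, ih, wB]
    group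

/-- Lemma P2: two elements with fixed points in an invariant interval have a common fixed point. -/
theorem lemP {k : ℕ} {E : Subgroup (X ≃o X)} (hE : IsEngel k E) {u v : X ≃o X} (hu : u ∈ E)
    (hv : v ∈ E) {a b : X} (hua : u a = a) (hub : u b = b) (hva : v a = a) (hvb : v b = b)
    (hfu : ∃ p, a < p ∧ p < b ∧ u p = p) (hfv : ∃ p, a < p ∧ p < b ∧ v p = p) :
    ∃ p, a < p ∧ p < b ∧ u p = p ∧ v p = p := by
  by_contra hcon
  have hno : ∀ t, a < t → t < b → ¬ (u t = t ∧ v t = t) := fun t h1 h2 h3 => hcon ⟨t, h1, h2, h3⟩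
  have hno' : ∀ t, a < t → t < b → ¬ (v t = t ∧ u t = t) :=
    fun t h1 h2 h3 => hcon ⟨t, h1, h2, h3.2, h3.1⟩
  have cu : ∀ t, t < b → a < t → ∃ q, t < q ∧ q < b ∧ u q = q :=
    fun t h1 _ => cofinal hE hu hv hub hvb hno hfu h1
  have cu' : ∀ t, a < t → t < b → ∃ q, a < q ∧ q < t ∧ u q = q :=
    fun t h1 _ => coinitial hE hu hv hua hva hno hfu h1
  have cv : ∀ t, t < b → a < t → ∃ q, t < q ∧ q < b ∧ v q = q :=
    fun t h1 _ => cofinal hE hv hu hvb hub hno' hfv h1
  have cv' : ∀ t, a < t → t < b → ∃ q, a < q ∧ q < t ∧ v q = q :=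
    fun t h1 _ => coinitial hE hv hu hva hua hno' hfv h1
  have Gx := good_pow cu cu'
  have Gx' := good_inv cu cu'
  have Gy := good_pow cv cv'
  have Gy' := good_inv cv cv'
  have huv : ∀ e, a < e → e < b → u e = e → v e ≠ e := fun e h1 h2 h3 h4 => hno e h1 h2 ⟨h3, h4⟩
  have hvu : ∀ e, a < e → e < b → v e = e → u e ≠ e := fun e h1 h2 h3 h4 => hno e h1 h2 ⟨h4, h3⟩
  -- the words `B_n`
  have GB : ∀ n, Good a b (fun N => wB (u ^ N) (v ^ N) n) v v ∧
      Good a b (fun N => (wB (u ^ N) (v ^ N) n)⁻¹) v v := by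
    intro n
    induction n with
    | zero => exact ⟨Gy', by simpa [wB] using Gy⟩
    | succ n ih =>
      obtain ⟨ih1, ih2⟩ := ih
      constructor
      · exact good_comp (good_comp (good_comp (good_comp ih1 Gx' hvu) Gy' huv) Gx hvu) ih2 huv
      · have h := good_comp (good_comp (good_comp (good_comp ih1 Gx' hvu) Gy huv) Gx hvu) ih2 huv
        have e : (fun N => (wB (u ^ N) (v ^ N) (n + 1))⁻¹) = (fun N => (wB (u ^ N) (v ^ N) n)⁻¹ *
            (u ^ N * (v ^ N * ((u ^ N)⁻¹ * wB (u ^ N) (v ^ N) n)))) := by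
          funext N
          rw [wB]
          group
        rw [e]
        exact h
  have GW := good_comp (good_comp (good_comp Gy Gx hvu) (GB k).1 huv) Gx' hvu
  -- the word is trivial
  have hW : ∀ N, (u ^ N)⁻¹ * (wB (u ^ N) (v ^ N) k * (u ^ N * v ^ N)) = 1 := by
    intro N
    have h1 : eng (u ^ N) (v ^ N) (k + 1) = 1 := by
      rw [eng_succ, hE _ (E.pow_mem hu N) _ (E.pow_mem hv N)]
      group
    rw [eng_eq_wB] at h1
    have h2 : (u ^ N)⁻¹ * (wB (u ^ N) (v ^ N) k * (u ^ N * v ^ N)) =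
        (v ^ N) ^ k * (((v ^ N) ^ k)⁻¹ * (u ^ N)⁻¹ * wB (u ^ N) (v ^ N) k * u ^ N * (v ^ N) ^ (k + 1)) *
          ((v ^ N) ^ k)⁻¹ := by
      rw [pow_succ' (v ^ N) k]
      group
    rw [h2, h1]
    group
  -- a point moved by both
  obtain ⟨t, ht1, ht2, ht3, ht4⟩ : ∃ t, a < t ∧ t < b ∧ u t ≠ t ∧ v t ≠ t := by
    obtain ⟨p, hp1, hp2, hp3⟩ := hfu
    have hvp : v p ≠ p := huv p hp1 hp2 hp3
    obtain ⟨y, hy, hypos, hyfix⟩ : ∃ y : X ≃o X, (∀ t, y t = t ↔ v t = t) ∧ p < y p ∧ True := by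
      rcases lt_or_gt_of_ne hvp with h | h
      · exact ⟨v⁻¹, fun t => inv_fix v t, (lt_inv_iff' v p p).mpr h, trivial⟩
      · exact ⟨v, fun t => Iff.rfl, h, trivial⟩
    obtain ⟨q, hq1, hq2, hq3⟩ := cv p hp2 hp1
    have hs1 : sp y p ≤ q := sp_le hq1.le ((hy q).mpr hq3).le
    have hs2 : v (sp y p) = sp y p := (hy _).mp (sp_fix hypos.le)
    have hs3 : a < sp y p := lt_of_lt_of_le hp1 (le_sp y p)
    have hs4 : sp y p < b := lt_of_le_of_lt hs1 hq2
    have hs5 : u (sp y p) ≠ sp y p := hvu _ hs3 hs4 hs2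
    by_contra hall
    push Not at hall
    apply hs5
    unfold sp
    rw [OrderIso.map_iSup]
    congr 1
    funext n
    by_contra hne
    have h1 : a < (y ^ n) p := lt_of_lt_of_le hp1 (by simpa using pow_mono hypos.le (Nat.zero_le n))
    have h2 : (y ^ n) p < b := lt_of_le_of_lt (pow_le_sp y p n) hs4
    have h3 := hall _ h1 h2 hne
    have h4 : y ((y ^ n) p) = (y ^ n) p := (hy _).mpr h3
    rw [← pow_succ_apply', pow_succ_apply] at h4
    exact hypos.ne' ((y ^ n).injective h4)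
  obtain ⟨e', -, -, he3, he4⟩ := GW (fun _ => t) t ht1 ht2 ht4 (Lim.const t)
  have hne : e' ≠ t := fun h => ht3 (h ▸ he3)
  obtain ⟨N, hN⟩ := he4.ne hne
  apply hN
  have := DFunLike.congr_fun (hW N) t
  exact this

/-- no crossings -/
theorem lemX {k : ℕ} {E : Subgroup (X ≃o X)} (hE : IsEngel k E) {u v : X ≃o X} (hu : u ∈ E)
    (hv : v ∈ E) {p q : X} (hpq : p < q) (hup : u p = p) (huq : u q ≠ q) (hvq : v q = q)
    (hfree : ∀ t, p ≤ t → t < q → v t ≠ t) : False := by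
  set A := {s | s ≤ p ∧ u s = s ∧ v s = s} with hA
  set B := {s | p ≤ s ∧ u s = s ∧ v s = s} with hB
  have hfixS : ∀ (w : X ≃o X) (S : Set X), (∀ s ∈ S, w s = s) → w (sSup S) = sSup S := by
    intro w S hS
    rw [OrderIso.map_sSup, sSup_eq_iSup]
    apply le_antisymm
    · refine iSup_le (fun s => iSup_le (fun hs => ?_))
      rw [hS s hs]
      exact le_iSup₂_of_le s hs le_rfl
    · refine iSup_le (fun s => iSup_le (fun hs => ?_))
      exact le_iSup₂_of_le s hs (by rw [hS s hs])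
  have hfixI : ∀ (w : X ≃o X) (S : Set X), (∀ s ∈ S, w s = s) → w (sInf S) = sInf S := by
    intro w S hS
    rw [OrderIso.map_sInf, sInf_eq_iInf]
    apply le_antisymm
    · refine le_iInf (fun s => le_iInf (fun hs => ?_))
      exact iInf₂_le_of_le s hs (by rw [hS s hs])
    · refine le_iInf (fun s => le_iInf (fun hs => ?_))
      rw [hS s hs]
      exact iInf₂_le_of_le s hs le_rfl
  have hau := hfixS u A (fun s hs => hs.2.1)
  have hav := hfixS v A (fun s hs => hs.2.2)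
  have hbu := hfixI u B (fun s hs => hs.2.1)
  have hbv := hfixI v B (fun s hs => hs.2.2)
  have hvp : v p ≠ p := hfree p le_rfl hpq
  have hap : sSup A < p := by
    refine lt_of_le_of_ne (sSup_le (fun s hs => hs.1)) (fun h => hvp ?_)
    rw [← h]; exact hav
  have hbq : q < sInf B := by
    have h1 : q ≤ sInf B := by
      refine le_sInf (fun s hs => ?_)
      by_contra h
      exact hfree s hs.1 (not_le.mp h) hs.2.2
    refine lt_of_le_of_ne h1 (fun h => huq ?_)
    rw [h]; exact hbu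
  obtain ⟨r, hr1, hr2, hr3, hr4⟩ := lemP hE hu hv hau hbu hav hbv
    ⟨p, hap, hpq.trans hbq, hup⟩ ⟨q, hap.trans hpq, hbq, hvq⟩
  rcases le_total r p with h | h
  · exact absurd (le_sSup (show r ∈ A from ⟨h, hr3, hr4⟩)) (not_le.mpr hr1)
  · exact absurd (sInf_le (show r ∈ B from ⟨h, hr3, hr4⟩)) (not_le.mpr hr2)

/-- Lemma Y for one end. -/
theorem lemY_aux {k : ℕ} {E : Subgroup (X ≃o X)} (hE : IsEngel k E) {u w : X ≃o X} (hu : u ∈ E)
    (hw : w ∈ E) {a b o : X} (hua : u a = a) (hub : u b = b)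
    (hfree : ∀ t, a < t → t < b → u t ≠ t) (hao : a < o) (hob : o < b)
    (hwo1 : a < w o) (hwo2 : w o < b) : ¬ b < w b := by
  intro hbw
  have hab : a < b := hao.trans hob
  rcases lt_trichotomy (w a) a with h | h | h
  · -- `w` has a fixed point in `(a, b)`
    obtain ⟨s, hs1, hs2, hs3⟩ := ivt' hab.le h.le hbw.le
    have hsa : a < s := lt_of_le_of_ne hs1 (fun e => h.ne (by rw [e]; exact hs3))
    have hsb : s < b := lt_of_le_of_ne hs2 (fun e => hbw.ne' (by rw [← e]; exact hs3))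
    exact lemX hE hw hu hsb hs3 hbw.ne' hub (fun t h1 h2 => hfree t (hsa.trans_le h1) h2)
  · exact hbw.ne' (lemA' hE hu hw hab hua hub h hfree)
  · have hwab : w a < b := (w.strictMono hao).trans hwo2
    have hmem : w * u * w⁻¹ ∈ E := E.mul_mem (E.mul_mem hw hu) (E.inv_mem hw)
    refine lemX hE hmem hu hwab ?_ ?_ hub (fun t h1 h2 => hfree t (h.trans_le h1) h2)
    · change w (u (w⁻¹ (w a))) = w a
      rw [inv_apply_self', hua]
    · intro h3
      have h4 : w (u (w⁻¹ b)) = b := h3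
      have h5 : u (w⁻¹ b) = w⁻¹ b := by
        have := congrArg (fun z => w⁻¹ z) h4
        rwa [inv_apply_self'] at this
      refine hfree (w⁻¹ b) ?_ ?_ h5
      · rw [lt_inv_iff']; exact hwab
      · rw [inv_lt_iff']; exact hbw

theorem lemY {k : ℕ} {E : Subgroup (X ≃o X)} (hE : IsEngel k E) {u w : X ≃o X} (hu : u ∈ E)
    (hw : w ∈ E) {a b o : X} (hua : u a = a) (hub : u b = b)
    (hfree : ∀ t, a < t → t < b → u t ≠ t) (hao : a < o) (hob : o < b)
    (hwo1 : a < w o) (hwo2 : w o < b) : w b = b := by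
  by_contra hne
  rcases lt_or_gt_of_ne hne with h | h
  · refine lemY_aux hE hu (E.inv_mem hw) (o := w o) hua hub hfree hwo1 hwo2 ?_ ?_ ?_
    · rw [inv_apply_self']; exact hao
    · rw [inv_apply_self']; exact hob
    · rw [lt_inv_iff']; exact h
  · exact lemY_aux hE hu hw hua hub hfree hao hob hwo1 hwo2 h

theorem lemY' {k : ℕ} {E : Subgroup (X ≃o X)} (hE : IsEngel k E) {u w : X ≃o X} (hu : u ∈ E)
    (hw : w ∈ E) {a b o : X} (hua : u a = a) (hub : u b = b)
    (hfree : ∀ t, a < t → t < b → u t ≠ t) (hao : a < o) (hob : o < b)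
    (hwo1 : a < w o) (hwo2 : w o < b) : w a = a := by
  have := lemY (X := Xᵒᵈ) (hE.map dualHom) (u := dualHom u) (w := dualHom w)
    (Subgroup.mem_map_of_mem _ hu) (Subgroup.mem_map_of_mem _ hw)
    (a := OrderDual.toDual b) (b := OrderDual.toDual a) (o := OrderDual.toDual o)
    (congrArg OrderDual.toDual hub) (congrArg OrderDual.toDual hua)
    (fun t h1 h2 h3 => hfree (OrderDual.ofDual t) h2 h1 (congrArg OrderDual.ofDual h3))
    hob hao hwo2 hwo1
  exact congrArg OrderDual.ofDual this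

end Pool.Agent.H75.Engel
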