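import Pool.Agent.H75.Engel.Dyn

/-!
# Right orders on Engel groups: the convex hull of a cyclic subgroup is a subgroup
-/

set_option autoImplicit false

namespace Pool.Agent.H75.Engel

open Filter

section

variable {G : Type*} [Group G] [LinearOrder G]

/-- right multiplication by `b⁻¹` as an order automorphism -/
def rmul (hright : ∀ x y b : G, x ≤ y → x * b ≤ y * b) (b : G) : G ≃o G where
  toEquiv := Equiv.mulRight b⁻¹
  map_rel_iff' := by
    intro x y
    constructor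
    · intro h
      have := hright _ _ b h
      simpa using this
    · intro h
      exact hright _ _ b⁻¹ h

theorem rmul_apply (hright : ∀ x y b : G, x ≤ y → x * b ≤ y * b) (b x : G) :
    rmul hright b x = x * b⁻¹ := rfl

theorem mem_map_rmul (hright : ∀ x y b : G, x ≤ y → x * b ≤ y * b) (b x : G) (S : LowerSet G) :
    x ∈ LowerSet.map (rmul hright b) S ↔ x * b ∈ S := by
  rw [LowerSet.mem_map]
  have : (rmul hright b).symm x = x * b := by
    rw [OrderIso.symm_apply_eq, rmul_apply]; simp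
  rw [this]

/-- the action on lower sets -/
noncomputable def act (hright : ∀ x y b : G, x ≤ y → x * b ≤ y * b) :
    G →* (LowerSet G ≃o LowerSet G) where
  toFun b := LowerSet.map (rmul hright b)
  map_one' := by
    apply DFunLike.ext
    intro S
    apply SetLike.ext
    intro x
    rw [mem_map_rmul, mul_one]
    rfl
  map_mul' b c := by
    apply DFunLike.ext
    intro S
    apply SetLike.ext
    intro x
    rw [mem_map_rmul]
    change x * (b * c) ∈ S ↔ x ∈ LowerSet.map (rmul hright b) (LowerSet.map (rmul hright c) S)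
    rw [mem_map_rmul, mem_map_rmul, mul_assoc]

theorem act_Iic (hright : ∀ x y b : G, x ≤ y → x * b ≤ y * b) (b x : G) :
    act hright b (LowerSet.Iic x) = LowerSet.Iic (x * b⁻¹) := by
  change LowerSet.map (rmul hright b) (LowerSet.Iic x) = _
  rw [LowerSet.map_Iic]
  rfl

theorem Iic_lt_Iic' (x y : G) : LowerSet.Iic x < LowerSet.Iic y ↔ x < y := by
  rw [lt_iff_le_not_ge, lt_iff_le_not_ge]
  have h : ∀ a b : G, LowerSet.Iic a ≤ LowerSet.Iic b ↔ a ≤ b := by
    intro a b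
    rw [LowerSet.Iic_le]
    exact Iff.rfl
  rw [h, h]

theorem pow_act_Iic (hright : ∀ x y b : G, x ≤ y → x * b ≤ y * b) (g : G) (n : ℕ) :
    ((act hright g) ^ n) (LowerSet.Iic 1) = LowerSet.Iic ((g ^ n)⁻¹) := by
  rw [← map_pow, act_Iic, one_mul]

/-- The convex hull of the cyclic subgroup generated by `g > 1` is a subgroup. -/
theorem hull_subgroup (hright : ∀ x y b : G, x ≤ y → x * b ≤ y * b) {k : ℕ}
    (hE : ∀ x y : G, eng x y k = 1) (g : G) (hg : 1 < g) :
    ∃ H : Subgroup G, ∀ x, x ∈ H ↔ ∃ n : ℕ, (g ^ n)⁻¹ ≤ x ∧ x ≤ g ^ n := by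
  have hright' : ∀ x y b : G, x < y → x * b < y * b := by
    intro x y b h
    refine lt_of_le_of_ne (hright _ _ _ h.le) (fun h2 => h.ne (mul_right_cancel h2))
  have hpow : ∀ n : ℕ, g ^ n < g ^ (n + 1) := by
    intro n
    have := hright' 1 g (g ^ n) hg
    rwa [one_mul, ← pow_succ'] at this
  have hpowm : StrictMono (fun n : ℕ => g ^ n) := strictMono_nat_of_lt_succ hpow
  have hpowi : ∀ n : ℕ, (g ^ (n + 1))⁻¹ < (g ^ n)⁻¹ := by
    intro n
    have := hright' 1 g ((g ^ (n + 1))⁻¹) hg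
    rw [one_mul, pow_succ g n, mul_inv_rev, mul_inv_cancel_left] at this
    rw [pow_succ g n, mul_inv_rev]
    exact this
  have hpowim : StrictAnti (fun n : ℕ => (g ^ n)⁻¹) := strictAnti_nat_of_succ_lt hpowi
  set Φ := act hright with hΦ
  set E : Subgroup (LowerSet G ≃o LowerSet G) := Φ.range with hEdef
  have hEng : IsEngel k E := by
    rintro _ ⟨x, rfl⟩ _ ⟨y, rfl⟩
    rw [← eng_map, hE, map_one]
  set u := Φ g⁻¹ with hu
  have huE : u ∈ E := ⟨g⁻¹, rfl⟩
  set o : LowerSet G := LowerSet.Iic 1 with ho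
  have hupow : ∀ n : ℕ, (u ^ n) o = LowerSet.Iic (g ^ n) := by
    intro n
    rw [hu, ho, pow_act_Iic, inv_pow, inv_inv]
  have huipow : ∀ n : ℕ, (u⁻¹ ^ n) o = LowerSet.Iic ((g ^ n)⁻¹) := by
    intro n
    rw [hu, ho, ← map_inv, inv_inv, pow_act_Iic]
  have huo : o < u o := by
    have := hupow 1
    rw [pow_one, pow_one] at this
    rw [this, ho, Iic_lt_Iic']
    exact hg
  have hiuo : u⁻¹ o < o := by
    rw [inv_lt_iff']; exact huo
  set b := sp u o with hb
  set a' := sp (X := (LowerSet G)ᵒᵈ) (dualHom u⁻¹) (OrderDual.toDual o) with ha'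
  set a := OrderDual.ofDual a' with ha
  have hub : u b = b := sp_fix huo.le
  have hua : u a = a := by
    have : dualHom u⁻¹ a' = a' :=
      sp_fix (X := (LowerSet G)ᵒᵈ) (u := dualHom u⁻¹) (t := OrderDual.toDual o) hiuo.le
    exact (inv_fix u a).mp (congrArg OrderDual.ofDual this)
  have hdpow : ∀ n : ℕ, ((dualHom u⁻¹) ^ n) (OrderDual.toDual o) =
      OrderDual.toDual (LowerSet.Iic ((g ^ n)⁻¹)) := by
    intro n
    rw [← map_pow, dualHom_apply, huipow]
  -- membership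
  have hlt_b : ∀ t, t < b ↔ ∃ n : ℕ, t < LowerSet.Iic (g ^ n) := by
    intro t
    constructor
    · intro h
      obtain ⟨n, hn⟩ := lt_iSup_iff.mp h
      exact ⟨n, by rwa [hupow] at hn⟩
    · rintro ⟨n, hn⟩
      refine hn.trans_le ?_
      rw [← hupow]
      exact pow_le_sp u o n
  have hgt_a : ∀ t, a < t ↔ ∃ n : ℕ, LowerSet.Iic ((g ^ n)⁻¹) < t := by
    intro t
    constructor
    · intro h
      have h' : OrderDual.toDual t < a' := h
      obtain ⟨n, hn⟩ := lt_iSup_iff.mp h'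
      refine ⟨n, ?_⟩
      rw [hdpow] at hn
      exact hn
    · rintro ⟨n, hn⟩
      have h1 := pow_le_sp (X := (LowerSet G)ᵒᵈ) (dualHom u⁻¹) (OrderDual.toDual o) n
      rw [hdpow] at h1
      exact lt_of_le_of_lt h1 hn
  have hao : a < o := (hgt_a o).mpr ⟨1, by
    rw [ho, Iic_lt_Iic']
    have := hpowi 0
    simpa using this⟩
  have hob : o < b := (hlt_b o).mpr ⟨1, by rw [ho, Iic_lt_Iic']; simpa using hg⟩
  have hfree : ∀ t, a < t → t < b → u t ≠ t := by
    intro t h1 h2 h3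
    obtain ⟨m, hm⟩ := (hgt_a t).mp h1
    obtain ⟨n, hn⟩ := (hlt_b t).mp h2
    have h4 : (u ^ (m + n)) t = t := pow_fix h3 _
    have h5 : (u ^ (m + n)) (LowerSet.Iic ((g ^ m)⁻¹)) < (u ^ (m + n)) t := (u ^ (m + n)).strictMono hm
    rw [h4, hu, ← map_pow, act_Iic, inv_pow, inv_inv, pow_add, inv_mul_cancel_left] at h5
    exact lt_asymm h5 hn
  have hmem : ∀ x : G, (a < LowerSet.Iic x ∧ LowerSet.Iic x < b) ↔
      ∃ n : ℕ, (g ^ n)⁻¹ ≤ x ∧ x ≤ g ^ n := by
    intro x
    rw [hgt_a, hlt_b]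
    constructor
    · rintro ⟨⟨m, hm⟩, n, hn⟩
      rw [Iic_lt_Iic'] at hm hn
      refine ⟨max m n, ?_, ?_⟩
      · exact (hpowim.antitone (le_max_left m n)).trans hm.le
      · exact hn.le.trans (hpowm.monotone (le_max_right m n))
    · rintro ⟨n, h1, h2⟩
      refine ⟨⟨n + 1, ?_⟩, n + 1, ?_⟩
      · rw [Iic_lt_Iic']; exact (hpowi n).trans_le h1
      · rw [Iic_lt_Iic']; exact h2.trans_lt (hpow n)
  refine ⟨{
    carrier := {x | Φ x a = a ∧ Φ x b = b}
    mul_mem' := ?_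
    one_mem' := ?_
    inv_mem' := ?_ }, ?_⟩
  · rintro x y ⟨h1, h2⟩ ⟨h3, h4⟩
    constructor
    · rw [map_mul]; change Φ x (Φ y a) = a; rw [h3, h1]
    · rw [map_mul]; change Φ x (Φ y b) = b; rw [h4, h2]
  · constructor <;> rw [map_one] <;> rfl
  · rintro x ⟨h1, h2⟩
    constructor
    · rw [map_inv]; exact (inv_fix _ _).mpr h1
    · rw [map_inv]; exact (inv_fix _ _).mpr h2
  · intro x
    rw [← hmem]
    have hw : Φ x⁻¹ o = LowerSet.Iic x := by rw [hΦ, ho, act_Iic]; simp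
    constructor
    · rintro ⟨h1, h2⟩
      have h1' : Φ x⁻¹ a = a := by rw [map_inv]; exact (inv_fix _ _).mpr h1
      have h2' : Φ x⁻¹ b = b := by rw [map_inv]; exact (inv_fix _ _).mpr h2
      constructor
      · have := (Φ x⁻¹).strictMono hao
        rwa [h1', hw] at this
      · have := (Φ x⁻¹).strictMono hob
        rwa [h2', hw] at this
    · rintro ⟨h1, h2⟩
      have hwE : Φ x⁻¹ ∈ E := ⟨x⁻¹, rfl⟩
      have e1 := lemY' hEng huE hwE hua hub hfree hao hob (by rw [hw]; exact h1)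
        (by rw [hw]; exact h2)
      have e2 := lemY hEng huE hwE hua hub hfree hao hob (by rw [hw]; exact h1)
        (by rw [hw]; exact h2)
      rw [map_inv] at e1 e2
      exact ⟨(inv_fix _ _).mp e1, (inv_fix _ _).mp e2⟩

/-- the convex jumps are Conradian -/
theorem jump_conrad (hright : ∀ x y b : G, x ≤ y → x * b ≤ y * b) {k : ℕ}
    (hE : ∀ x y : G, eng x y k = 1) (C D : Subgroup G)
    (hC : ∀ x ∈ C, ∀ y ∈ C, ∀ z, x ≤ z → z ≤ y → z ∈ C)
    (hD : ∀ x ∈ D, ∀ y ∈ D, ∀ z, x ≤ z → z ≤ y → z ∈ D) (hCD : C < D)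
    (hmax : ∀ F : Subgroup G, (∀ x ∈ F, ∀ y ∈ F, ∀ z, x ≤ z → z ≤ y → z ∈ F) → C ≤ F → F < D →
      F = C) :
    (∀ c ∈ C, ∀ d ∈ D, d * c * d⁻¹ ∈ C) ∧
    (∀ x ∈ D, x ∉ C → 1 < x → ∀ y ∈ D, ∃ n : ℕ, y ≤ x ^ n) := by
  have hright' : ∀ x y b : G, x < y → x * b < y * b := by
    intro x y b h
    refine lt_of_le_of_ne (hright _ _ _ h.le) (fun h2 => h.ne (mul_right_cancel h2))
  have hbd : ∀ x, x ∉ C → 1 < x → ∀ c ∈ C, c < x ∧ x⁻¹ < c := by
    intro x hx h1 c hc
    constructor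
    · by_contra h
      exact hx (hC 1 C.one_mem c hc x h1.le (not_lt.mp h))
    · by_contra h
      have h2 : x⁻¹ < 1 := by
        have := hright' 1 x x⁻¹ h1
        simpa using this
      exact hx (C.inv_mem_iff.mp (hC c hc 1 C.one_mem x⁻¹ (not_lt.mp h) h2.le))
  have harch : ∀ x ∈ D, x ∉ C → 1 < x → ∀ y ∈ D, ∃ n : ℕ, (x ^ n)⁻¹ ≤ y ∧ y ≤ x ^ n := by
    intro x hxD hxC h1
    obtain ⟨H, hH⟩ := hull_subgroup hright hE x h1
    have hHconv : ∀ y ∈ H, ∀ z ∈ H, ∀ w, y ≤ w → w ≤ z → w ∈ H := by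
      intro y hy z hz w h2 h3
      rw [hH] at hy hz ⊢
      obtain ⟨m, hm1, hm2⟩ := hy
      obtain ⟨n, hn1, hn2⟩ := hz
      have hpow : ∀ n : ℕ, x ^ n ≤ x ^ (n + 1) := by
        intro n
        have := hright 1 x (x ^ n) h1.le
        rwa [one_mul, ← pow_succ'] at this
      have hpowm : Monotone (fun n : ℕ => x ^ n) := monotone_nat_of_le_succ hpow
      have hpowi : ∀ n : ℕ, (x ^ (n + 1))⁻¹ ≤ (x ^ n)⁻¹ := by
        intro n
        have := hright 1 x ((x ^ (n + 1))⁻¹) h1.le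
        rw [one_mul, pow_succ x n, mul_inv_rev, mul_inv_cancel_left] at this
        rw [pow_succ x n, mul_inv_rev]
        exact this
      have hpowim : Antitone (fun n : ℕ => (x ^ n)⁻¹) := antitone_nat_of_succ_le hpowi
      refine ⟨max m n, ?_, ?_⟩
      · exact (hpowim (le_max_left m n)).trans (hm1.trans h2)
      · exact (h3.trans hn2).trans (hpowm (le_max_right m n))
    have hxH : x ∈ H := by
      rw [hH]
      refine ⟨1, ?_, by simp⟩
      have h2 : x⁻¹ < 1 := by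
        have := hright' 1 x x⁻¹ h1
        simpa using this
      rw [pow_one]
      exact (h2.trans h1).le
    have hCH : C ≤ H := by
      intro c hc
      rw [hH]
      obtain ⟨h2, h3⟩ := hbd x hxC h1 c hc
      exact ⟨1, by simpa using h3.le, by simpa using h2.le⟩
    have hDH : D ≤ H := by
      by_contra hnot
      have hlt : H ⊓ D < D := by
        refine lt_of_le_of_ne inf_le_right (fun h => hnot ?_)
        rw [← h]
        exact inf_le_left
      have := hmax (H ⊓ D) (fun y hy z hz w h2 h3 =>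
        ⟨hHconv y hy.1 z hz.1 w h2 h3, hD y hy.2 z hz.2 w h2 h3⟩) (le_inf hCH hCD.le) hlt
      apply hxC
      rw [← this]
      exact ⟨hxH, hxD⟩
    intro y hy
    exact (hH y).mp (hDH hy)
  refine ⟨?_, fun x h1 h2 h3 y h4 => by
    obtain ⟨n, -, hn⟩ := harch x h1 h2 h3 y h4
    exact ⟨n, hn⟩⟩
  -- normality
  have key : ∀ c ∈ C, ∀ d ∈ D, ∀ z, z = d * c * d⁻¹ → 1 < z → z ∈ C := by
    intro c hc d hd z hz hz1
    by_contra hzC
    have hzD : z ∈ D := by
      rw [hz]
      exact D.mul_mem (D.mul_mem hd (hCD.le hc)) (D.inv_mem hd)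
    obtain ⟨n, hn1, -⟩ := harch z hzD hzC hz1 d⁻¹ (D.inv_mem hd)
    obtain ⟨m, -, hm2⟩ := harch z hzD hzC hz1 (z * d⁻¹) (D.mul_mem hzD (D.inv_mem hd))
    have hstep : ∀ l : ℕ, ∃ c' ∈ C, (z ^ n)⁻¹ * z ^ l ≤ c' * d⁻¹ := by
      intro l
      induction l with
      | zero => exact ⟨1, C.one_mem, by simpa using hn1⟩
      | succ l ih =>
        obtain ⟨c', hc', h⟩ := ih
        refine ⟨c' * c, C.mul_mem hc' hc, ?_⟩
        have h2 := hright _ _ z h
        rw [mul_assoc, ← pow_succ] at h2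
        refine h2.trans (le_of_eq ?_)
        rw [hz]
        group
    obtain ⟨c', hc', h⟩ := hstep (n + (m + 1))
    rw [pow_add, inv_mul_cancel_left] at h
    have h3 : c' * d⁻¹ < z * d⁻¹ := hright' _ _ _ (hbd z hzC hz1 c' hc').1
    have h4 : z ^ (m + 1) < z ^ m := lt_of_le_of_lt h (h3.trans_le hm2)
    have h5 : z ^ m < z ^ (m + 1) := by
      have := hright' 1 z (z ^ m) hz1
      rwa [one_mul, ← pow_succ'] at this
    exact lt_asymm h4 h5
  intro c hc d hd
  rcases lt_trichotomy 1 (d * c * d⁻¹) with h | h | h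
  · exact key c hc d hd _ rfl h
  · rw [← h]; exact C.one_mem
  · have h1 : 1 < (d * c * d⁻¹)⁻¹ := by
      have := hright' _ _ (d * c * d⁻¹)⁻¹ h
      rwa [mul_inv_cancel, one_mul] at this
    have h2 := key c⁻¹ (C.inv_mem hc) d hd (d * c * d⁻¹)⁻¹ (by group) h1
    exact C.inv_mem_iff.mp h2

end

end Pool.Agent.H75.Engel
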